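import Mathlib
import Pool.Agent.Lib.helper22.DG
import Pool.Agent.H.MP_8a4945_al.F
import Pool.Agent.H.MP_07d80f_al.C

namespace Pool.Agent.Results.MP_07d80f_al.Yes

open CategoryTheory Pool.Agent.Lib.DG Pool.Agent.H.MP_8a4945_al

noncomputable def cd (G : Type) [Group G] : ℕ∞ :=
  ⨆ (n : ℕ) (M : Rep.{0} ℤ G) (_ : Nontrivial (groupCohomology M n)), (n : ℕ∞)

noncomputable def ad (G : Type) [Group G] : ℕ∞ :=
  ⨆ (n : ℕ) (f : Multiplicative (Fin n → ℤ) →* G) (_ : Function.Injective f), (n : ℕ∞)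

theorem result (S : Type) (R : Set (List S × List S)) (w : List S) (hR : ∀ r ∈ R, r.1 ≠ [] ∧ r.2 ≠ []) :
    cd (D R w) = ad (D R w) :=
  Pool.Agent.H.MP_07d80f_al.cd_ad ((sys hR w).cd_le ⟨⟨w⟩, 𝟙 _⟩)

end Pool.Agent.Results.MP_07d80f_al.Yes
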